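import Mathlib
import Pool.Agent.N751.FR.Stm
import Pool.Agent.N707.DR.VkG

set_option autoImplicit false

/-!
# FR/SIM: simple zeros of several polynomials (helper400)
-/

namespace Pool.Agent.N400.FRSim

open NumberField IsDedekindDomain Module Polynomial Height
open Pool.Agent.N753.DR Pool.Agent.N415.DRVK Pool.Agent.N751.FR

section One
variable {M : Type} [Field M] [NumberField M]

/-- weights of the primes -/
theorem wts_le {z : M} (hz : z ≠ 0) (T : Finset (HeightOneSpectrum (𝓞 M)))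
    (f : HeightOneSpectrum (𝓞 M) → ℝ)
    (hT : ∀ w ∈ T, f w ≤ Real.posLog (FinitePlace.mk w z⁻¹)) :
    ∑ w ∈ T, f w ≤ logHeight₁ z := by
  classical
  rw [← logHeight₁_inv, NumberField.logHeight₁_eq]
  have h0 : 0 ≤ ∑ v : InfinitePlace M, v.mult * Real.posLog (v z⁻¹) :=
    Finset.sum_nonneg fun v _ => mul_nonneg (Nat.cast_nonneg _) Real.posLog_nonneg
  have hfin : (Function.support fun v : FinitePlace M => Real.posLog (v z⁻¹)).Finite := by
    refine (FinitePlace.hasFiniteMulSupport (inv_ne_zero hz)).subset fun v hv => ?_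
    rw [Function.mem_support] at hv
    rw [Function.mem_mulSupport]
    intro h
    apply hv
    rw [h, Real.posLog_one]
  have h1 : ∑ᶠ v : FinitePlace M, Real.posLog (v z⁻¹) =
      ∑ v ∈ hfin.toFinset ∪ T.image FinitePlace.mk, Real.posLog (v z⁻¹) := by
    refine finsum_eq_sum_of_support_subset _ fun v hv => ?_
    rw [Finset.coe_union]
    left
    rwa [Set.Finite.coe_toFinset]
  rw [h1]
  have h2 : ∑ v ∈ T.image FinitePlace.mk, Real.posLog (v z⁻¹) ≤
      ∑ v ∈ hfin.toFinset ∪ T.image FinitePlace.mk, Real.posLog (v z⁻¹) :=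
    Finset.sum_le_sum_of_subset_of_nonneg Finset.subset_union_right
      fun v _ _ => Real.posLog_nonneg
  rw [Finset.sum_image fun a _ b _ h => FinitePlace.mk_eq_iff.1 h] at h2
  have h3 : ∑ w ∈ T, f w ≤ ∑ w ∈ T, Real.posLog (FinitePlace.mk w z⁻¹) :=
    Finset.sum_le_sum fun w hw => hT w hw
  linarith

theorem abv2_le {z : M} (w : HeightOneSpectrum (𝓞 M)) (hw : w.valuation M z < 1)
    (hw2 : w.valuation M z ≠ WithZero.exp (-1 : ℤ)) (hz : z ≠ 0) :
    (FinitePlace.mk w z : ℝ) ≤ (((Ideal.absNorm w.asIdeal : ℕ) : ℝ) ^ 2)⁻¹ := by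
  have hN := NumberField.HeightOneSpectrum.one_lt_absNorm_nnreal w
  have hx : w.valuation M z ≠ 0 := (Valuation.ne_zero_iff _).2 hz
  rw [FinitePlace.mk_apply, FinitePlace.norm_embedding', WithZeroMulInt.toNNReal_neg_apply _ hx]
  have h1 : (WithZero.unzero hx) < 1 := by
    rw [← WithZero.coe_lt_coe, WithZero.coe_unzero]
    exact hw
  have h4 : (WithZero.unzero hx).toAdd ≠ -1 := by
    intro h
    apply hw2
    rw [← WithZero.coe_unzero hx]
    have h5 : WithZero.unzero hx = Multiplicative.ofAdd (-1 : ℤ) :=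
      Multiplicative.toAdd.injective (by rw [toAdd_ofAdd]; exact h)
    rw [h5]
    rfl
  have h2 : (WithZero.unzero hx).toAdd ≤ -2 := by
    have h3 : (WithZero.unzero hx).toAdd < 0 := h1
    omega
  push_cast
  have hN' : (1 : ℝ) < (Ideal.absNorm w.asIdeal : ℕ) := by exact_mod_cast hN
  calc ((Ideal.absNorm w.asIdeal : ℕ) : ℝ) ^ (WithZero.unzero hx).toAdd
      ≤ ((Ideal.absNorm w.asIdeal : ℕ) : ℝ) ^ (-2 : ℤ) := zpow_le_zpow_right₀ hN'.le h2
    _ = _ := by
      rw [zpow_neg]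
      norm_cast

theorem log_abv2 {z : M} (w : HeightOneSpectrum (𝓞 M)) (hw : w.valuation M z < 1)
    (hw2 : w.valuation M z ≠ WithZero.exp (-1 : ℤ)) (hz : z ≠ 0) :
    2 * lN w ≤ Real.posLog (FinitePlace.mk w z⁻¹) := by
  have h1 := abv2_le w hw hw2 hz
  have hN := NumberField.HeightOneSpectrum.one_lt_absNorm_nnreal w
  have hN' : (1 : ℝ) < (Ideal.absNorm w.asIdeal : ℕ) := by exact_mod_cast hN
  have hp : 0 < (FinitePlace.mk w z : ℝ) := FinitePlace.pos_iff.2 hz
  have h2 : ((Ideal.absNorm w.asIdeal : ℕ) : ℝ) ^ 2 ≤ FinitePlace.mk w z⁻¹ := by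
    have h3 : (FinitePlace.mk w z⁻¹ : ℝ) = (FinitePlace.mk w z : ℝ)⁻¹ := map_inv₀ _ _
    rw [h3]
    rwa [le_inv_comm₀ (by positivity) hp]
  calc 2 * lN w = Real.log (((Ideal.absNorm w.asIdeal : ℕ) : ℝ) ^ 2) := by
        rw [Real.log_pow]
        unfold lN
        norm_num
    _ ≤ Real.log (FinitePlace.mk w z⁻¹) := Real.log_le_log (by positivity) h2
    _ ≤ _ := le_max_right _ _

end One

section Den
variable {K : Type} [Field K] [NumberField K]

theorem den (F : K[X]) : ∃ n : ℕ, n ≠ 0 ∧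
    ∀ (M : Type) [Field M] [NumberField M] [Algebra K M] (w : HeightOneSpectrum (𝓞 M)) (x : M),
      (n : 𝓞 M) ∉ w.asIdeal → w.valuation M x ≤ 1 → w.valuation M (aeval x F) ≤ 1 := by
  classical
  obtain ⟨n, hn, h⟩ := Pool.Agent.N707.DRVkG.sepZ (F.support.image F.coeff)
  refine ⟨n, hn, ?_⟩
  intro M _ _ _ w x hw hx
  rw [aeval_def, eval₂_eq_sum, Polynomial.sum_def]
  refine Valuation.map_sum_le _ fun i hi => ?_
  rw [map_mul, map_pow, h M w hw _ (Finset.mem_image_of_mem _ hi) (mem_support_iff.1 hi), one_mul]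
  exact pow_le_one' hx i

theorem cop {P Q : K[X]} (hPQ : IsCoprime P Q) : ∃ n : ℕ, n ≠ 0 ∧
    ∀ (M : Type) [Field M] [NumberField M] [Algebra K M] (w : HeightOneSpectrum (𝓞 M)) (x : M),
      (n : 𝓞 M) ∉ w.asIdeal → w.valuation M x ≤ 1 → w.valuation M (aeval x P) < 1 →
      w.valuation M (aeval x Q) < 1 → False := by
  obtain ⟨a, b, hab⟩ := hPQ
  obtain ⟨n1, h1, h1'⟩ := den a
  obtain ⟨n2, h2, h2'⟩ := den b
  refine ⟨n1 * n2, mul_ne_zero h1 h2, ?_⟩
  intro M _ _ _ w x hw hx hP hQ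
  have k1 := h1' M w x (fun h => hw (by rw [Nat.cast_mul]; exact Ideal.mul_mem_right _ _ h)) hx
  have k2 := h2' M w x (fun h => hw (by rw [Nat.cast_mul]; exact Ideal.mul_mem_left _ _ h)) hx
  have e1 : aeval x a * aeval x P + aeval x b * aeval x Q = 1 := by
    rw [← map_mul, ← map_mul, ← map_add, hab, map_one]
  have e2 : w.valuation M (aeval x a * aeval x P) < 1 := by
    rw [map_mul]
    calc w.valuation M (aeval x a) * w.valuation M (aeval x P)
        ≤ 1 * w.valuation M (aeval x P) := mul_le_mul' k1 le_rfl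
      _ < 1 := by rw [one_mul]; exact hP
  have e3 : w.valuation M (aeval x b * aeval x Q) < 1 := by
    rw [map_mul]
    calc w.valuation M (aeval x b) * w.valuation M (aeval x Q)
        ≤ 1 * w.valuation M (aeval x Q) := mul_le_mul' k2 le_rfl
      _ < 1 := by rw [one_mul]; exact hQ
  have e4 := (w.valuation M).map_add_lt e2 e3
  rw [e1, map_one] at e4
  exact lt_irrefl _ e4

theorem cop' (S : Finset ℕ) (PP : Finset K[X]) (hPP : ∀ P ∈ PP, P.Monic ∧ Irreducible P) :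
    ∃ S' : Finset ℕ, S ⊆ S' ∧ ∀ (M : Type) [Field M] [NumberField M] [Algebra K M]
      (w : HeightOneSpectrum (𝓞 M)) (x : M), ∀ P ∈ PP, ∀ Q ∈ PP, P ≠ Q →
      Near S' P x w → Near S' Q x w → False := by
  classical
  have key : ∀ PQ : K[X] × K[X], ∃ n : ℕ, n ≠ 0 ∧ (IsCoprime PQ.1 PQ.2 →
      ∀ (M : Type) [Field M] [NumberField M] [Algebra K M] (w : HeightOneSpectrum (𝓞 M)) (x : M),
        (n : 𝓞 M) ∉ w.asIdeal → w.valuation M x ≤ 1 → w.valuation M (aeval x PQ.1) < 1 →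
        w.valuation M (aeval x PQ.2) < 1 → False) := by
    intro PQ
    by_cases h : IsCoprime PQ.1 PQ.2
    · obtain ⟨n, hn, hn'⟩ := cop h
      exact ⟨n, hn, fun _ => hn'⟩
    · exact ⟨1, one_ne_zero, fun h' => absurd h' h⟩
  choose n hn hn' using key
  refine ⟨S ∪ (PP ×ˢ PP).image n, Finset.subset_union_left, ?_⟩
  intro M _ _ _ w x P hP Q hQ hne h1 h2
  have hc : IsCoprime P Q := by
    rw [(hPP P hP).2.coprime_iff_not_dvd]
    intro hd
    have h3 := (hPP P hP).2.associated_of_dvd (hPP Q hQ).2 hd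
    exact hne (eq_of_monic_of_associated (hPP P hP).1 (hPP Q hQ).1 h3)
  refine hn' (P, Q) hc M w x ?_ h1.2.1 h1.2.2 h2.2.2
  exact h1.1 _ (Finset.mem_union_right _
    (Finset.mem_image_of_mem n (Finset.mk_mem_product hP hQ))) (hn (P, Q))

/-- one polynomial -/
theorem one {M : Type} [Field M] [NumberField M] [Algebra K M] (S : Finset ℕ) (P : K[X]) (x : M)
    (hPx : aeval x P ≠ 0) {A B : ℝ} (hA : ∀ W : Finset (HeightOneSpectrum (𝓞 M)),
      (∀ w, Near S P x w → w ∈ W) → A ≤ ∑ w ∈ W, lN w)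
    (hB : logHeight₁ (aeval x P) ≤ B) :
    ∃ Z : Finset (HeightOneSpectrum (𝓞 M)), (∀ w ∈ Z, Near S P x w ∧ Simple S P x w) ∧
      2 * A - B ≤ ∑ w ∈ Z, lN w := by
  classical
  let Z : Finset (HeightOneSpectrum (𝓞 M)) :=
    (zeros_finite hPx).toFinset.filter (fun w => Near S P x w)
  have hZ : ∀ w, w ∈ Z ↔ Near S P x w := by
    intro w
    rw [Finset.mem_filter, Set.Finite.mem_toFinset]
    exact ⟨fun h => h.2, fun h => ⟨h.2.2, h⟩⟩
  have h1 := hA Z fun w h => (hZ w).2 h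
  have h2 : ∑ w ∈ Z, (if w.valuation M (aeval x P) = WithZero.exp (-1 : ℤ) then lN w
      else 2 * lN w) ≤ logHeight₁ (aeval x P) := by
    refine wts_le hPx Z _ fun w hw => ?_
    have h3 := ((hZ w).1 hw).2.2
    split_ifs with h4
    · exact log_abv w h3 hPx
    · exact log_abv2 w h3 h4 hPx
  refine ⟨Z.filter (fun w => w.valuation M (aeval x P) = WithZero.exp (-1 : ℤ)), ?_, ?_⟩
  · intro w hw
    rw [Finset.mem_filter] at hw
    have h3 := (hZ w).1 hw.1
    exact ⟨h3, h3.1, h3.2.1, hw.2⟩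
  · have h4 : ∑ w ∈ Z.filter (fun w => w.valuation M (aeval x P) = WithZero.exp (-1 : ℤ)), lN w +
        ∑ w ∈ Z, (if w.valuation M (aeval x P) = WithZero.exp (-1 : ℤ) then lN w
      else 2 * lN w) = 2 * ∑ w ∈ Z, lN w := by
      rw [Finset.sum_filter, ← Finset.sum_add_distrib, Finset.mul_sum]
      refine Finset.sum_congr rfl fun w _ => ?_
      split_ifs <;> ring
    linarith

end Den

/-- FR/SIM without hypotheses -/
theorem t0 : StmSim := by
  classical
  intro K _ _ r hr E hE PP hPP S κ hκ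
  obtain ⟨S', hSS, hS'⟩ := cop' S PP fun P hP => ⟨(hPP P hP).1, (hPP P hP).2.1⟩
  set κ' : ℝ := κ / (2 * (PP.card + 1)) with hκ'
  have hκ'0 : 0 < κ' := by positivity
  have hκ'c : 2 * κ' * PP.card ≤ κ := by
    have h1 : 2 * κ' * (PP.card + 1) = κ := by
      rw [hκ']
      field_simp
    nlinarith
  -- constants
  have hC1 : ∀ P : K[X], ∃ C : ℝ, P ∈ PP → ∀ (M : Type) [Field M] [NumberField M] [Algebra K M]
      (x : M), finrank K M = r → (minpoly K x).natDegree = r → minpoly K x ∉ E →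
      ∀ W : Finset (HeightOneSpectrum (𝓞 M)), (∀ w, Near S' P x w → w ∈ W) →
        (P.natDegree - κ') * Height.logHeight₁ x ≤ ∑ w ∈ W, lN w + C := by
    intro P
    by_cases hP : P ∈ PP
    · obtain ⟨C, hC⟩ := hE S' P (hPP P hP).1 (hPP P hP).2.1 (hPP P hP).2.2 κ' hκ'0
      exact ⟨C, fun _ => hC⟩
    · exact ⟨0, fun h => absurd h hP⟩
  choose C1 hC1 using hC1
  have hC2 : ∀ P : K[X], ∃ C : ℝ, 0 ≤ C ∧ (P ∈ PP → ∀ (M : Type) [Field M] [NumberField M]
      [Algebra K M] (x : M), aeval x P = 0 → logHeight₁ x ≤ finrank ℚ M * C) := by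
    intro P
    by_cases hP : P ∈ PP
    · obtain ⟨C, hC0, hC⟩ := conj_ht P (hPP P hP).2.1
      exact ⟨C, hC0, fun _ => hC⟩
    · exact ⟨0, le_rfl, fun h => absurd h hP⟩
  choose C2 hC20 hC2 using hC2
  have hC3 : ∀ P : K[X], ∃ C : ℝ, 0 ≤ C ∧ ∀ (M : Type) [Field M] [NumberField M] [Algebra K M]
      (x : M), logHeight₁ (aeval x P) ≤ P.natDegree * logHeight₁ x + finrank K M * C :=
    fun P => ht_eval P.natDegree P le_rfl
  choose C3 hC30 hC3 using hC3
  set dd : ℝ := ((∑ P ∈ PP, P.natDegree : ℕ) : ℝ) with hdd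
  have hdd0 : 0 ≤ dd := Nat.cast_nonneg _
  set H0 : ℝ := finrank ℚ K * r * ∑ P ∈ PP, C2 P with hH0
  have hH00 : 0 ≤ H0 := by
    have : 0 ≤ ∑ P ∈ PP, C2 P := Finset.sum_nonneg fun P _ => hC20 P
    positivity
  set C4 : ℝ := ∑ P ∈ PP, (2 * |C1 P| + r * C3 P) with hC4
  have hC40 : 0 ≤ C4 := Finset.sum_nonneg fun P _ => by
    have := hC30 P
    positivity
  refine ⟨dd * H0 + C4, ?_⟩
  intro M _ _ _ x hM hx hxE W hW
  have hh0 : 0 ≤ logHeight₁ x := zero_le_logHeight₁ x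
  have hW0 : 0 ≤ ∑ w ∈ W, lN w := Finset.sum_nonneg fun w _ => lN_nonneg w
  by_cases hex : ∃ P ∈ PP, aeval x P = 0
  · obtain ⟨P, hP, hPx⟩ := hex
    have h1 := hC2 P hP M x hPx
    have h2 : (finrank ℚ M : ℝ) = finrank ℚ K * r := by
      rw [← hM]
      exact_mod_cast (Module.finrank_mul_finrank ℚ K M).symm
    have h3 : C2 P ≤ ∑ P ∈ PP, C2 P := Finset.single_le_sum (fun P _ => hC20 P) hP
    have h4 : logHeight₁ x ≤ H0 := by
      rw [h2] at h1
      exact h1.trans (mul_le_mul_of_nonneg_left h3 (by positivity))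
    have h5 : (dd - κ) * logHeight₁ x ≤ dd * H0 := by nlinarith
    linarith
  · push Not at hex
    have hone : ∀ P : K[X], ∃ Z : Finset (HeightOneSpectrum (𝓞 M)), P ∈ PP →
        ((∀ w ∈ Z, Near S' P x w ∧ Simple S' P x w) ∧
        (P.natDegree - 2 * κ') * logHeight₁ x - (2 * |C1 P| + r * C3 P) ≤ ∑ w ∈ Z, lN w) := by
      intro P
      by_cases hP : P ∈ PP
      · obtain ⟨Z, hZ1, hZ2⟩ := one S' P x (hex P hP)
          (A := (P.natDegree - κ') * logHeight₁ x - C1 P)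
          (B := P.natDegree * logHeight₁ x + finrank K M * C3 P)
          (fun W hW => by
            have := hC1 P hP M x hM hx hxE W hW
            linarith) (hC3 P M x)
        refine ⟨Z, fun _ => ⟨hZ1, ?_⟩⟩
        rw [hM] at hZ2
        have := le_abs_self (C1 P)
        linarith
      · exact ⟨∅, fun h => absurd h hP⟩
    choose Z hZ using hone
    have hdisj : Set.PairwiseDisjoint (PP : Set K[X]) Z := by
      intro P hP Q hQ hne
      rw [Function.onFun, Finset.disjoint_left]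
      intro w hw1 hw2
      exact hS' M w x P hP Q hQ hne ((hZ P hP).1 w hw1).1 ((hZ Q hQ).1 w hw2).1
    have hsub : PP.biUnion Z ⊆ W := by
      intro w hw
      rw [Finset.mem_biUnion] at hw
      obtain ⟨P, hP, hwP⟩ := hw
      obtain ⟨g1, g2, g3⟩ := ((hZ P hP).1 w hwP).2
      exact hW w ⟨P, hP, fun p hp => g1 p (hSS hp), g2, g3⟩
    have h1 : ∑ P ∈ PP, ∑ w ∈ Z P, lN w ≤ ∑ w ∈ W, lN w := by
      rw [← Finset.sum_biUnion hdisj]
      exact Finset.sum_le_sum_of_subset_of_nonneg hsub fun w _ _ => lN_nonneg w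
    have h2 : ∑ P ∈ PP, ((P.natDegree - 2 * κ') * logHeight₁ x - (2 * |C1 P| + r * C3 P)) ≤
        ∑ P ∈ PP, ∑ w ∈ Z P, lN w := Finset.sum_le_sum fun P hP => (hZ P hP).2
    have h3 : ∑ P ∈ PP, ((P.natDegree - 2 * κ') * logHeight₁ x - (2 * |C1 P| + r * C3 P)) =
        (dd - 2 * κ' * PP.card) * logHeight₁ x - C4 := by
      rw [Finset.sum_sub_distrib, ← Finset.sum_mul, Finset.sum_sub_distrib, Finset.sum_const,
        nsmul_eq_mul, hdd, hC4]
      push_cast
      ring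
    have h4 : (dd - κ) * logHeight₁ x ≤ (dd - 2 * κ' * PP.card) * logHeight₁ x :=
      mul_le_mul_of_nonneg_right (by linarith) hh0
    have h5 : 0 ≤ dd * H0 := mul_nonneg hdd0 hH00
    linarith

/-- **FR/SIM** simple zeros of several polynomials -/
theorem t (_ : StmHt) : StmSim := t0

end Pool.Agent.N400.FRSim
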